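import Pool.Agent.X308.S.TriMain
import Pool.Agent.X308.S.BBMain
import Pool.Agent.Y110.Kf

/-!
# Murre's conjectures for all Chow-Kunneth decompositions of varieties of surface type
-/

set_option autoImplicit false

open CategoryTheory AlgebraicGeometry

universe u v w

namespace Pool.Agent.N536.VP

open Pool.Agent.H914 Pool.Agent.H914.VarClass Pool.Agent.H914.VarClass.Obj Pool.Agent.W492.BB
  Pool.Agent.W550.Corr Pool.Agent.TH133 Pool.Agent.Y148.BB Pool.Agent.X308.S
  Pool.Agent.TH829.Kim

variable {k : Type u} [Field k] {𝒱 : VarClass k} {C : TheoryData.{u, v, 0} 𝒱 ℚ} {K : Type w}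
  [Field K] [hC : IsChowProj C]
  {H : WeilTheoryData.{u, v, w} C K} [hH : IsWeilProj H] {X : 𝒱.Obj}

include hC hH

theorem tfae_surface (hS : SurfaceProperties H) (hX : OfSurfaceType C X) :
    List.TFAE [MurreB0 H X ∧ MurreB1 H X, MurreB1 H X, MurreC H X, MurreD H X,
      PhantomsActTrivially H X] := by
  obtain ⟨π, h⟩ := exists_pure (H := H) hS hX
  exact tfae_murre h.ck (noRaising_of_wt hS h.wt) (B0_of_wt h.ck h.wt) (B1_of_wt hS h.ck h.wt)
    (D_of_wt hS h.ck h.wt)

theorem murre_of_kimura (hS : SurfaceProperties H) (hX : OfSurfaceType C X)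
    (hK : IsKimuraFinite C (ratFam C) X) :
    MurreB0 H X ∧ MurreB1 H X ∧ MurreC H X ∧ MurreD H X := by
  have h := tfae_surface hS hX
  have h5 : PhantomsActTrivially H X := by
    intro p hp hpp hcl x
    have h0 : p = 0 := Pool.Agent.Y110.noPhantoms_of_kimura (H := H) hK p hp hpp hcl
    rw [h0, TheoryData.act_zero]
  have h1 := (h.out 4 0).1 h5
  exact ⟨h1.1, h1.2, (h.out 4 2).1 h5, (h.out 4 3).1 h5⟩

theorem final (hS : SurfaceProperties H) (hX : OfSurfaceType C X) :
    List.TFAE [MurreB0 H X ∧ MurreB1 H X, MurreC H X, MurreD H X, PhantomsActTrivially H X] ∧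
      (IsKimuraFinite C (ratFam C) X → MurreB0 H X ∧ MurreB1 H X) := by
  refine ⟨?_, fun h => ⟨(murre_of_kimura hS hX h).1, (murre_of_kimura hS hX h).2.1⟩⟩
  have h := tfae_surface hS hX
  tfae_have 1 ↔ 2 := h.out 0 2
  tfae_have 1 ↔ 3 := h.out 0 3
  tfae_have 1 ↔ 4 := h.out 0 4
  tfae_finish

/-- Bloch's conjecture for the correspondences between surfaces implies the conjectures of Murre for
all decompositions of the varieties of surface type. -/
theorem murre_of_bloch (hS : SurfaceProperties H) (hB : BlochCorrespondences H)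
    (hX : OfSurfaceType C X) : MurreC H X := by
  intro π π' hπ hπ' i n
  have h1 := ((surfaceType_isBB_iff (H := H) hS).1).2 hB
  obtain ⟨F, hF⟩ := h1
  have h2 := ((surfaceType_isBB_iff (H := H) hS).2 F hF X hX).2
  rw [← h2 π hπ i n, ← h2 π' hπ' i n]

end Pool.Agent.N536.VP
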